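import Pool.Agent.Y197.SD.Stm

/-!
# SD-DLIM: from lattice second differences to the limits (helper689)
-/

set_option autoImplicit false

namespace Pool.Agent.Y689.SD.DLIM

open Pool.Agent.Y197.SD

section lattice

variable {a b C D : ℝ} {n : ℕ} {H : ℕ → ℝ}

/-- telescoping of the first differences -/
lemma first (hP : ∀ w : ℕ, a * n ≤ w + 1 → (w:ℝ) ≤ b * n + 1 → |H (w + 1) - H w| ≤ D / n)
    {u : ℕ} (hu : a * n ≤ u + 1) (k : ℕ) (hv : (u : ℝ) + k ≤ b * n + 2) :
    |H (u + k) - H u| ≤ k * (D / n) := by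
  induction k with
  | zero => simp
  | succ k ih =>
    push_cast at hv
    have h1 := ih (by linarith)
    have h2 := hP (u + k) (by
      push_cast
      have : (0 : ℝ) ≤ k := Nat.cast_nonneg k
      linarith) (by push_cast; linarith)
    have e : H (u + (k + 1)) - H u = (H (u + k + 1) - H (u + k)) + (H (u + k) - H u) := by
      rw [← add_assoc]
      ring
    rw [e]
    refine (abs_add_le _ _).trans ?_
    push_cast
    linarith

/-- telescoping of the second differences, one direction -/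
lemma second1 (hP : ∀ w : ℕ, a * n ≤ w + 1 → (w:ℝ) ≤ b * n + 1 →
      |H (w + 2) - 2 * H (w + 1) + H w| ≤ C / (n:ℝ) ^ 2)
    {u : ℕ} (hu : a * n ≤ u + 1) (p : ℕ) (hv : (u : ℝ) + p ≤ b * n + 2) :
    |(H (u + p + 1) - H (u + p)) - (H (u + 1) - H u)| ≤ p * (C / (n : ℝ) ^ 2) := by
  induction p with
  | zero => simp
  | succ p ih =>
    push_cast at hv
    have h1 := ih (by linarith)
    have h2 := hP (u + p) (by
      push_cast
      have : (0 : ℝ) ≤ p := Nat.cast_nonneg p
      linarith) (by push_cast; linarith)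
    have e : (H (u + (p + 1) + 1) - H (u + (p + 1))) - (H (u + 1) - H u) =
        (H (u + p + 2) - 2 * H (u + p + 1) + H (u + p)) +
          ((H (u + p + 1) - H (u + p)) - (H (u + 1) - H u)) := by
      have e1 : u + (p + 1) + 1 = u + p + 2 := by ring
      have e2 : u + (p + 1) = u + p + 1 := by ring
      rw [e1, e2]
      ring
    rw [e]
    refine (abs_add_le _ _).trans ?_
    push_cast
    linarith

/-- telescoping of the second differences -/
lemma second (hP : ∀ w : ℕ, a * n ≤ w + 1 → (w:ℝ) ≤ b * n + 1 →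
      |H (w + 2) - 2 * H (w + 1) + H w| ≤ C / (n:ℝ) ^ 2)
    {u : ℕ} (hu : a * n ≤ u + 1) (p r : ℕ) (hv : (u : ℝ) + p + r ≤ b * n + 2) :
    |H (u + p + r) - H (u + p) - H (u + r) + H u| ≤ r * (p * (C / (n : ℝ) ^ 2)) := by
  induction r with
  | zero => simp
  | succ r ih =>
    push_cast at hv
    have h1 := ih (by linarith)
    have h2 := second1 hP (u := u + r) (by
      push_cast
      have : (0 : ℝ) ≤ r := Nat.cast_nonneg r
      linarith) p (by push_cast; linarith)
    have e : H (u + p + (r + 1)) - H (u + p) - H (u + (r + 1)) + H u =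
        ((H (u + r + p + 1) - H (u + r + p)) - (H (u + r + 1) - H (u + r))) +
          (H (u + p + r) - H (u + p) - H (u + r) + H u) := by
      have e1 : u + p + (r + 1) = u + r + p + 1 := by ring
      have e2 : u + (r + 1) = u + r + 1 := by ring
      have e3 : u + p + r = u + r + p := by ring
      rw [e1, e2, e3]
      ring
    rw [e]
    refine (abs_add_le _ _).trans ?_
    push_cast
    linarith

end lattice

open Filter

theorem main : S_DLIM := by
  intro a b C D H nk g ha hab hC hD hnk hH hg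
  have hnkR : Tendsto (fun k => (nk k : ℝ)) atTop atTop := tendsto_natCast_atTop_atTop.comp hnk
  have hHk := hnk.eventually hH
  have hpos : ∀ᶠ k in atTop, 0 < (nk k : ℝ) := hnkR.eventually_gt_atTop 0
  have hfl : ∀ x : ℝ, 0 ≤ x → Tendsto (fun k => ((⌊x * nk k⌋₊ : ℕ) : ℝ) / nk k) atTop (nhds x) :=
    fun x hx => (tendsto_nat_floor_mul_div_atTop hx).comp hnkR
  constructor
  · have key : ∀ x ∈ Set.Ioo a b, ∀ y ∈ Set.Ioo a b, x ≤ y → |g y - g x| ≤ D * (y - x) := by
      intro x hx y hy hxy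
      have h1 : Tendsto (fun k => |H (nk k) ⌊y * nk k⌋₊ - H (nk k) ⌊x * nk k⌋₊|) atTop
          (nhds |g y - g x|) := ((hg y hy).sub (hg x hx)).abs
      have h2 : Tendsto (fun k => D * (((⌊y * nk k⌋₊ : ℕ) : ℝ) / nk k -
          ((⌊x * nk k⌋₊ : ℕ) : ℝ) / nk k)) atTop (nhds (D * (y - x))) :=
        ((hfl y (ha.trans hy.1).le).sub (hfl x (ha.trans hx.1).le)).const_mul D
      refine le_of_tendsto_of_tendsto h1 h2 ?_
      filter_upwards [hHk, hpos] with k hk hp
      have hle : ⌊x * nk k⌋₊ ≤ ⌊y * nk k⌋₊ := Nat.floor_le_floor (by gcongr)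
      obtain ⟨m, hm⟩ := Nat.exists_eq_add_of_le hle
      have h3 : x * nk k < (⌊x * nk k⌋₊ : ℝ) + 1 := Nat.lt_floor_add_one _
      have h4 : (⌊y * nk k⌋₊ : ℝ) ≤ y * nk k :=
        Nat.floor_le (mul_nonneg (ha.trans hy.1).le hp.le)
      have h5 : a * nk k ≤ x * nk k := mul_le_mul_of_nonneg_right hx.1.le hp.le
      have h6 : y * nk k ≤ b * nk k := mul_le_mul_of_nonneg_right hy.2.le hp.le
      have h7 := first (H := H (nk k)) (fun w hw hw' => (hk w hw hw').1) (u := ⌊x * nk k⌋₊)
        (by linarith) m (by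
          rw [hm] at h4
          push_cast at h4
          linarith)
      rw [← hm] at h7
      refine h7.trans (le_of_eq ?_)
      rw [hm]
      push_cast
      field_simp
      ring
    intro x hx y hy
    rcases le_total x y with h | h
    · rw [abs_sub_comm, abs_sub_comm x y, abs_of_nonneg (sub_nonneg.2 h)]
      exact key x hx y hy h
    · rw [abs_of_nonneg (sub_nonneg.2 h)]
      exact key y hy x hx h
  · intro x s t hs ht hx hxst
    have mx : x ∈ Set.Ioo a b := ⟨hx, by linarith⟩
    have ms : x + s ∈ Set.Ioo a b := ⟨by linarith, by linarith⟩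
    have mt : x + t ∈ Set.Ioo a b := ⟨by linarith, by linarith⟩
    have mst : x + s + t ∈ Set.Ioo a b := ⟨by linarith, hxst⟩
    have h1 : Tendsto (fun k => |H (nk k) ⌊(x + s + t) * nk k⌋₊ - H (nk k) ⌊(x + s) * nk k⌋₊ -
        H (nk k) ⌊(x + t) * nk k⌋₊ + H (nk k) ⌊x * nk k⌋₊|) atTop
        (nhds |g (x + s + t) - g (x + s) - g (x + t) + g x|) :=
      ((((hg _ mst).sub (hg _ ms)).sub (hg _ mt)).add (hg _ mx)).abs
    have fx := hfl x (by linarith)
    have fs := hfl (x + s) (by linarith)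
    have ft := hfl (x + t) (by linarith)
    have h2 : Tendsto (fun k => C * ((((⌊(x + s) * nk k⌋₊ : ℕ) : ℝ) / nk k -
        ((⌊x * nk k⌋₊ : ℕ) : ℝ) / nk k) * (((⌊(x + t) * nk k⌋₊ : ℕ) : ℝ) / nk k -
        ((⌊x * nk k⌋₊ : ℕ) : ℝ) / nk k)) + 2 * D / nk k) atTop
        (nhds (C * ((x + s - x) * (x + t - x)) + 0)) :=
      (((fs.sub fx).mul (ft.sub fx)).const_mul C).add (hnkR.const_div_atTop (2 * D))
    have e0 : C * ((x + s - x) * (x + t - x)) + 0 = C * (s * t) := by ring
    rw [e0] at h2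
    refine le_of_tendsto_of_tendsto h1 h2 ?_
    have hbig : ∀ᶠ k in atTop, 1 ≤ (x - a) * (nk k : ℝ) :=
      (hnkR.const_mul_atTop (sub_pos.2 hx)).eventually_ge_atTop 1
    filter_upwards [hHk, hpos, hbig] with k hk hp hb
    have n0 : (0 : ℝ) ≤ nk k := hp.le
    have hx0 : 0 ≤ x := by linarith
    have lx : x * nk k < (⌊x * nk k⌋₊ : ℝ) + 1 := Nat.lt_floor_add_one _
    have ux : (⌊x * nk k⌋₊ : ℝ) ≤ x * nk k := Nat.floor_le (by positivity)
    have ls : (x + s) * nk k < (⌊(x + s) * nk k⌋₊ : ℝ) + 1 := Nat.lt_floor_add_one _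
    have us : (⌊(x + s) * nk k⌋₊ : ℝ) ≤ (x + s) * nk k := Nat.floor_le (by positivity)
    have lt' : (x + t) * nk k < (⌊(x + t) * nk k⌋₊ : ℝ) + 1 := Nat.lt_floor_add_one _
    have ut : (⌊(x + t) * nk k⌋₊ : ℝ) ≤ (x + t) * nk k := Nat.floor_le (by positivity)
    have lst : (x + s + t) * nk k < (⌊(x + s + t) * nk k⌋₊ : ℝ) + 1 := Nat.lt_floor_add_one _
    have ust : (⌊(x + s + t) * nk k⌋₊ : ℝ) ≤ (x + s + t) * nk k := Nat.floor_le (by positivity)
    obtain ⟨p, hp'⟩ := Nat.exists_eq_add_of_le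
      (Nat.floor_le_floor (show x * (nk k : ℝ) ≤ (x + s) * nk k by gcongr; linarith))
    obtain ⟨r, hr'⟩ := Nat.exists_eq_add_of_le
      (Nat.floor_le_floor (show x * (nk k : ℝ) ≤ (x + t) * nk k by gcongr; linarith))
    have han : a * nk k ≤ x * nk k := mul_le_mul_of_nonneg_right hx.le n0
    have hbn : (x + s + t) * nk k ≤ b * nk k := mul_le_mul_of_nonneg_right hxst.le n0
    have hxan : (x - a) * (nk k : ℝ) = x * nk k - a * nk k := sub_mul _ _ _
    have hsn : 0 ≤ s * (nk k : ℝ) := by positivity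
    have htn : 0 ≤ t * (nk k : ℝ) := by positivity
    have d1 : (x + s) * (nk k : ℝ) = x * nk k + s * nk k := add_mul _ _ _
    have d2 : (x + t) * (nk k : ℝ) = x * nk k + t * nk k := add_mul _ _ _
    have d3 : (x + s + t) * (nk k : ℝ) = x * nk k + s * nk k + t * nk k := by ring
    generalize hF : ⌊(x + s + t) * (nk k : ℝ)⌋₊ = F at *
    generalize hw : ⌊x * (nk k : ℝ)⌋₊ = w at *
    rw [hp'] at ls us ⊢
    rw [hr'] at lt' ut ⊢
    push_cast at ls us lt' ut
    rw [d1] at ls us
    rw [d2] at lt' ut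
    rw [d3] at lst ust hbn
    have hsec := second (H := H (nk k)) (fun w hw hw' => (hk w hw hw').2) (u := w)
      (by linarith) p r (by linarith)
    have hfi : |H (nk k) F - H (nk k) (w + p + r)| ≤ 2 * D / nk k := by
      have hDn : 0 ≤ D / nk k := by positivity
      rcases le_total F (w + p + r) with h | h
      · obtain ⟨m, hm⟩ := Nat.exists_eq_add_of_le h
        have hmr : (w : ℝ) + p + r = F + m := by exact_mod_cast hm
        have h3 := first (H := H (nk k)) (fun w hw hw' => (hk w hw hw').1) (u := F)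
          (by linarith) m (by linarith)
        rw [hm, abs_sub_comm]
        refine h3.trans ?_
        have h4 : (m : ℝ) ≤ 2 := by linarith
        calc (m : ℝ) * (D / nk k) ≤ 2 * (D / nk k) := by gcongr
          _ = 2 * D / nk k := by ring
      · obtain ⟨m, hm⟩ := Nat.exists_eq_add_of_le h
        have hmr : (F : ℝ) = w + p + r + m := by exact_mod_cast hm
        have h3 := first (H := H (nk k)) (fun w hw hw' => (hk w hw hw').1) (u := w + p + r)
          (by push_cast; linarith) m (by push_cast; linarith)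
        rw [hm]
        refine h3.trans ?_
        have h4 : (m : ℝ) ≤ 2 := by linarith
        calc (m : ℝ) * (D / nk k) ≤ 2 * (D / nk k) := by gcongr
          _ = 2 * D / nk k := by ring
    have e1 : H (nk k) F - H (nk k) (w + p) - H (nk k) (w + r) + H (nk k) w =
        (H (nk k) F - H (nk k) (w + p + r)) +
          (H (nk k) (w + p + r) - H (nk k) (w + p) - H (nk k) (w + r) + H (nk k) w) := by ring
    rw [e1]
    refine (abs_add_le _ _).trans ?_
    have e2 : C * ((((w + p : ℕ) : ℝ) / nk k - (w : ℝ) / nk k) *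
        (((w + r : ℕ) : ℝ) / nk k - (w : ℝ) / nk k)) = r * (p * (C / (nk k : ℝ) ^ 2)) := by
      push_cast
      field_simp
      ring
    rw [e2]
    linarith

end Pool.Agent.Y689.SD.DLIM
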